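import Mathlib

set_option autoImplicit false

/-! The value stated for `S₁(p)` when `12 ∣ p - 1` is not attained at `p = 37 = 1^2 + 6^2`. -/

namespace Pool.Agent.Results.MP_8312d7_nt.Disproof

open Finset

/-- The generalized binomial coefficient `a (a-1) ⋯ (a-k+1) / k!`. -/
def bin (a : ℚ) (k : ℕ) : ℚ := (∏ i ∈ range k, (a - i)) / (k.factorial : ℚ)

/-- `S₁(p) = ∑_{k=0}^{p-1} binom(-1/4,k) binom(-1/2,k) / 4^k`. -/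
def S₁ (p : ℕ) : ℚ := ∑ k ∈ range p, bin (-1 / 4) k * bin (-1 / 2) k / 4 ^ k

/-- `S₂(p) = ∑_{k=0}^{p-1} binom(-1/2,k) binom(-1/6,k) 2^k`. -/
def S₂ (p : ℕ) : ℚ := ∑ k ∈ range p, bin (-1 / 2) k * bin (-1 / 6) k * 2 ^ k

/-- `u ≡ v (mod p^m)` in the ring of rationals with denominator prime to `p`. -/
def Cong (p m : ℕ) (u v : ℚ) : Prop := ¬ p ∣ ((u - v) / (p : ℚ) ^ m).den

/-- The Legendre symbol `(p/3)`. -/
def leg3 (p : ℕ) : ℚ := (legendreSym 3 (p : ℤ) : ℤ)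

/-- The assertion of Q1 for one prime `p ≡ 1 (mod 4)`. -/
def Q1at (p : ℕ) : Prop :=
  ∀ x y : ℤ, (p : ℤ) = x ^ 2 + y ^ 2 → x % 2 = 1 →
    Cong p 2 (S₁ p) (leg3 p * S₂ p) ∧
    (p % 12 = 1 →
      Cong p 2 (S₁ p) ((-1 : ℚ) ^ (((p : ℤ) - 1) / 4 + (x + 1) / 2) * (2 * x - p / (2 * x)))) ∧
    (p % 12 = 5 → Cong p 2 (S₁ p) (2 * y - p / (2 * y)) ∨
      Cong p 2 (S₁ p) (2 * (-y) - p / (2 * (-y))))

theorem dvd37 : 37 ∣ ((S₁ 37 - (2 - 37 / 2)) / (37 : ℚ) ^ 2).den := by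
  decide +kernel

theorem result : ¬ ∀ p : ℕ, p.Prime → p % 4 = 1 → Q1at p := by
  intro h
  have h1 := ((h 37 (by norm_num) (by norm_num)) 1 6 (by norm_num) (by norm_num)).2.1 (by norm_num)
  apply h1
  have e : (-1 : ℚ) ^ ((((37 : ℕ) : ℤ) - 1) / 4 + ((1 : ℤ) + 1) / 2) *
      (2 * ((1 : ℤ) : ℚ) - ((37 : ℕ) : ℚ) / (2 * ((1 : ℤ) : ℚ))) = 2 - 37 / 2 := by
    have e1 : ((((37 : ℕ) : ℤ) - 1) / 4 + ((1 : ℤ) + 1) / 2) = 10 := by norm_num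
    rw [e1]
    norm_num
  rw [e]
  exact_mod_cast dvd37

end Pool.Agent.Results.MP_8312d7_nt.Disproof
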